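import Mathlib
import Pool.Agent.Y86.TypeSg
import Pool.Agent.Y86.CircleEx3

/-!
# The cancellation law fails for equidecomposability with restricted pieces

The example: `X` is the circle, `G` is the infinite dihedral group of isometries generated by the
reflections `x ↦ -x` and `x ↦ ω - x` with `ω` irrational, `𝒜` is the Borel σ-algebra, `α` and `β`
are the types of an open half circle centred at a fixed point of the first, respectively of the
second, reflection. Then `2 α = [X] = 2 β`, but `α ≠ β`, by ergodicity of the rotation by `ω`.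
-/

set_option autoImplicit false

namespace Pool.Agent.Results.MP_3fd8c4_al.CancellationFails

open Pool.Agent.Y86.TypeSg

/-- There are a group `G` acting on a set `X` and a proper `G`-invariant subalgebra `𝒜` of the
algebra of all subsets of `X`, which is even a σ-algebra, such that the type semigroup of `𝒜` has
elements `α ≠ β` with `2 α = 2 β`. -/
theorem result : ∃ (G X : Type) (_ : Group G) (_ : MulAction G X) (𝒜 : InvSubalg G X),
    𝒜.sets ≠ Set.univ ∧
    (∀ F : ℕ → Set X, (∀ n, F n ∈ 𝒜.sets) → ⋃ n, F n ∈ 𝒜.sets) ∧
    ∃ α β : TypeSemigroup 𝒜, 2 • α = 2 • β ∧ α ≠ β := by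
  refine ⟨Pool.Agent.Y86.CircleEx.D, Pool.Agent.Y86.CircleEx.T, inferInstance, inferInstance,
    Pool.Agent.Y86.CircleEx.borelAlg, Pool.Agent.Y86.CircleEx.proper, ?_,
    Pool.Agent.Y86.CircleEx.not_cancel⟩
  intro F hF
  have h : ∀ n, MeasurableSet (F n) := hF
  exact MeasurableSet.iUnion h

end Pool.Agent.Results.MP_3fd8c4_al.CancellationFails
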